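import Mathlib

set_option autoImplicit false
open MeasureTheory

namespace Pool.Agent.MP_151d89_pr.H82

/-- graph homomorphisms from the square lattice to the integers -/
def Hom (f : ℤ × ℤ → ℤ) : Prop :=
  ∀ x y : ℤ × ℤ, |x.1 - y.1| + |x.2 - y.2| = 1 → |f x - f y| = 1

/-- Gibbs measures of the uniform specification, as in the frozen statement -/
def Gibbs (ν : Measure (ℤ × ℤ → ℤ)) : Prop :=
  IsProbabilityMeasure ν ∧ (∀ᵐ f ∂ν, Hom f) ∧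
    ∀ (Λ Δ : Finset (ℤ × ℤ)) (a b : ℤ × ℤ → ℤ), Hom a → Hom b → (∀ x, x ∉ Λ → a x = b x) →
      (∀ x ∈ Λ, x ∈ Δ ∧ ∀ y : ℤ × ℤ, |x.1 - y.1| + |x.2 - y.2| = 1 → y ∈ Δ) →
      ν {f | ∀ x ∈ Δ, f x = a x} = ν {f | ∀ x ∈ Δ, f x = b x}

theorem lipH {f : ℤ × ℤ → ℤ} (hf : Hom f) (a b : ℤ) (n : ℕ) :
    |f (a + n, b) - f (a, b)| ≤ n ∧ (f (a + n, b) - f (a, b) - n) % 2 = 0 := by
  induction n with
  | zero => simp
  | succ n ih =>
    have h := hf (a + ((n + 1 : ℕ) : ℤ), b) (a + n, b) (by push_cast; simp)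
    obtain ⟨h1, h2⟩ := ih
    rw [abs_le] at h1 ⊢
    rcases abs_eq (by norm_num : (0:ℤ) ≤ 1) |>.1 h with h | h <;> push_cast at * <;> omega

theorem lipV {f : ℤ × ℤ → ℤ} (hf : Hom f) (a b : ℤ) (n : ℕ) :
    |f (a, b + n) - f (a, b)| ≤ n ∧ (f (a, b + n) - f (a, b) - n) % 2 = 0 := by
  induction n with
  | zero => simp
  | succ n ih =>
    have h := hf (a, b + ((n + 1 : ℕ) : ℤ)) (a, b + n) (by push_cast; simp)
    obtain ⟨h1, h2⟩ := ih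
    rw [abs_le] at h1 ⊢
    rcases abs_eq (by norm_num : (0:ℤ) ≤ 1) |>.1 h with h | h <;> push_cast at * <;> omega

theorem lipH' {f : ℤ × ℤ → ℤ} (hf : Hom f) (a a' b : ℤ) :
    |f (a', b) - f (a, b)| ≤ |a' - a| ∧ (f (a', b) - f (a, b) - |a' - a|) % 2 = 0 := by
  rcases le_total a a' with h | h
  · obtain ⟨n, rfl⟩ := Int.le.dest h
    have := lipH hf a b n
    simpa using this
  · obtain ⟨n, rfl⟩ := Int.le.dest h
    have := lipH hf a' b n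
    obtain ⟨h1, h2⟩ := this
    have e : |a' - (a' + n)| = n := by simp
    rw [e, abs_sub_comm]
    exact ⟨h1, by omega⟩

theorem lipV' {f : ℤ × ℤ → ℤ} (hf : Hom f) (a b b' : ℤ) :
    |f (a, b') - f (a, b)| ≤ |b' - b| ∧ (f (a, b') - f (a, b) - |b' - b|) % 2 = 0 := by
  rcases le_total b b' with h | h
  · obtain ⟨n, rfl⟩ := Int.le.dest h
    have := lipV hf a b n
    simpa using this
  · obtain ⟨n, rfl⟩ := Int.le.dest h
    have := lipV hf a b' n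
    obtain ⟨h1, h2⟩ := this
    have e : |b' - (b' + n)| = n := by simp
    rw [e, abs_sub_comm]
    exact ⟨h1, by omega⟩

theorem lip {f : ℤ × ℤ → ℤ} (hf : Hom f) (x y : ℤ × ℤ) :
    f x - f y ≤ |x.1 - y.1| + |x.2 - y.2| ∧
      (f x - f y - (|x.1 - y.1| + |x.2 - y.2|)) % 2 = 0 := by
  obtain ⟨a, b⟩ := x
  obtain ⟨c, d⟩ := y
  obtain ⟨h1, h2⟩ := lipH' hf c a b
  obtain ⟨h3, h4⟩ := lipV' hf c d b
  have := le_abs_self (f (a, b) - f (c, b))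
  have := le_abs_self (f (c, b) - f (c, d))
  simp only
  omega

/-- cutting a homomorphism by a cone -/
def cut (g : ℤ × ℤ → ℤ) (u : ℤ × ℤ) (c : ℤ) : ℤ × ℤ → ℤ :=
  fun v => min (g v) (c + (|v.1 - u.1| + |v.2 - u.2|))

theorem cut_hom {g : ℤ × ℤ → ℤ} (hg : Hom g) (u : ℤ × ℤ) (c : ℤ) (hc : (g u - c) % 2 = 0) :
    Hom (cut g u c) := by
  intro x y hxy
  have h1 := hg x y hxy
  have h2 := (lip hg x u).2
  have h3 := (lip hg y u).2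
  have h4 : |(|x.1 - u.1| + |x.2 - u.2|) - (|y.1 - u.1| + |y.2 - u.2|)| = 1 := by
    rcases abs_cases (x.1 - y.1) with ⟨e1, _⟩ | ⟨e1, _⟩ <;>
    rcases abs_cases (x.2 - y.2) with ⟨e2, _⟩ | ⟨e2, _⟩ <;>
    rcases abs_cases (x.1 - u.1) with ⟨e3, _⟩ | ⟨e3, _⟩ <;>
    rcases abs_cases (x.2 - u.2) with ⟨e4, _⟩ | ⟨e4, _⟩ <;>
    rcases abs_cases (y.1 - u.1) with ⟨e5, _⟩ | ⟨e5, _⟩ <;>
    rcases abs_cases (y.2 - u.2) with ⟨e6, _⟩ | ⟨e6, _⟩ <;>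
    rw [abs_eq (by norm_num)] <;> omega
  unfold cut
  generalize |x.1 - u.1| + |x.2 - u.2| = p at *
  generalize |y.1 - u.1| + |y.2 - u.2| = q at *
  rw [abs_eq (by norm_num)] at h1 h4 ⊢
  omega

/-- cylinder sets -/
def cyl (Δ : Finset (ℤ × ℤ)) (a : ℤ × ℤ → ℤ) : Set (ℤ × ℤ → ℤ) := {f | ∀ x ∈ Δ, f x = a x}

theorem meas_cyl (Δ : Finset (ℤ × ℤ)) (a : ℤ × ℤ → ℤ) : MeasurableSet (cyl Δ a) := by
  have : cyl Δ a = ⋂ x ∈ Δ, (fun f : ℤ × ℤ → ℤ => f x) ⁻¹' {a x} := by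
    ext f; simp [cyl]
  rw [this]
  exact Finset.measurableSet_biInter _ fun x _ => (measurable_pi_apply x) (measurableSet_singleton _)

/-- the box of radius n -/
noncomputable def box (u : ℤ × ℤ) (n : ℕ) : Finset (ℤ × ℤ) :=
  Finset.Icc (u.1 - n) (u.1 + n) ×ˢ Finset.Icc (u.2 - n) (u.2 + n)

theorem mem_box {u v : ℤ × ℤ} {n : ℕ} :
    v ∈ box u n ↔ (u.1 - n ≤ v.1 ∧ v.1 ≤ u.1 + n) ∧ (u.2 - n ≤ v.2 ∧ v.2 ≤ u.2 + n) := by
  simp [box]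

theorem card_box (u : ℤ × ℤ) (n : ℕ) : (box u n).card = (2 * n + 1) ^ 2 := by
  unfold box
  rw [Finset.card_product, Int.card_Icc, Int.card_Icc]
  have e1 : (u.1 + n + 1 - (u.1 - n)).toNat = 2 * n + 1 := by omega
  have e2 : (u.2 + n + 1 - (u.2 - n)).toNat = 2 * n + 1 := by omega
  rw [e1, e2]; ring

/-- the largest value at the four axis points at distance n, minus n -/
def top (g : ℤ × ℤ → ℤ) (u : ℤ × ℤ) (n : ℕ) : ℤ :=
  max (max (g (u.1 + n, u.2)) (g (u.1 - n, u.2))) (max (g (u.1, u.2 + n)) (g (u.1, u.2 - n))) - n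

theorem top_par {g : ℤ × ℤ → ℤ} (hg : Hom g) (u : ℤ × ℤ) (n : ℕ) : (g u - top g u n) % 2 = 0 := by
  have h1 := (lip hg (u.1 + n, u.2) u).2
  have h2 := (lip hg (u.1 - n, u.2) u).2
  have h3 := (lip hg (u.1, u.2 + n) u).2
  have h4 := (lip hg (u.1, u.2 - n) u).2
  simp at h1 h2 h3 h4
  unfold top
  omega

theorem cut_out {g : ℤ × ℤ → ℤ} (hg : Hom g) (u : ℤ × ℤ) (n : ℕ) (v : ℤ × ℤ)
    (hv : v ∉ box u n) : g v = cut g u (top g u (n + 1)) v := by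
  have h1 := (lip hg v (u.1 + (n + 1 : ℕ), u.2)).1
  have h2 := (lip hg v (u.1 - (n + 1 : ℕ), u.2)).1
  have h3 := (lip hg v (u.1, u.2 + (n + 1 : ℕ))).1
  have h4 := (lip hg v (u.1, u.2 - (n + 1 : ℕ))).1
  rw [mem_box] at hv
  unfold cut top
  simp only at h1 h2 h3 h4
  generalize g (u.1 + (n + 1 : ℕ), u.2) = A at *
  generalize g (u.1 - (n + 1 : ℕ), u.2) = B at *
  generalize g (u.1, u.2 + (n + 1 : ℕ)) = C at *
  generalize g (u.1, u.2 - (n + 1 : ℕ)) = D at *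
  push_cast at *
  symm
  apply min_eq_left
  rcases abs_cases (v.1 - u.1) with ⟨e1, _⟩ | ⟨e1, _⟩ <;>
  rcases abs_cases (v.2 - u.2) with ⟨e2, _⟩ | ⟨e2, _⟩ <;>
  rcases abs_cases (v.1 - (u.1 + (n + 1))) with ⟨e3, _⟩ | ⟨e3, _⟩ <;>
  rcases abs_cases (v.1 - (u.1 - (n + 1))) with ⟨e4, _⟩ | ⟨e4, _⟩ <;>
  rcases abs_cases (v.2 - (u.2 + (n + 1))) with ⟨e5, _⟩ | ⟨e5, _⟩ <;>
  rcases abs_cases (v.2 - (u.2 - (n + 1))) with ⟨e6, _⟩ | ⟨e6, _⟩ <;>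
  omega

theorem cyl_cut {μ : Measure (ℤ × ℤ → ℤ)} (hμ : Gibbs μ) {g : ℤ × ℤ → ℤ} (hg : Hom g)
    (u : ℤ × ℤ) (n : ℕ) :
    μ (cyl (box u (n + 1)) g) = μ (cyl (box u (n + 1)) (cut g u (top g u (n + 1)))) := by
  refine hμ.2.2 (box u n) (box u (n + 1)) g _ hg (cut_hom hg u _ (top_par hg u _))
    (fun x hx => cut_out hg u n x hx) ?_
  intro x hx
  rw [mem_box] at hx
  refine ⟨by rw [mem_box]; push_cast; omega, fun y hy => ?_⟩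
  rw [mem_box]; push_cast
  rcases abs_cases (x.1 - y.1) with ⟨e1, _⟩ | ⟨e1, _⟩ <;>
  rcases abs_cases (x.2 - y.2) with ⟨e2, _⟩ | ⟨e2, _⟩ <;> omega

end Pool.Agent.MP_151d89_pr.H82
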