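import Pool.Agent.MP_151d89_pr.H82.Tail

set_option autoImplicit false
open MeasureTheory Filter

namespace Pool.Agent.MP_151d89_pr.H82

theorem unit_cases {e : ℤ × ℤ} (he : |e.1| + |e.2| = 1) :
    e = (1, 0) ∨ e = (-1, 0) ∨ e = (0, 1) ∨ e = (0, -1) := by
  obtain ⟨a, b⟩ := e
  simp only [Prod.mk.injEq] at he ⊢
  rcases abs_cases a with ⟨e1, _⟩ | ⟨e1, _⟩ <;> rcases abs_cases b with ⟨e2, _⟩ | ⟨e2, _⟩ <;> omega

theorem ray_dist {e : ℤ × ℤ} (he : |e.1| + |e.2| = 1) (u w : ℤ × ℤ) (n m : ℕ) (h : m ≤ n) :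
    |(u + (n : ℤ) • e).1 - (w + (m : ℤ) • e).1| + |(u + (n : ℤ) • e).2 - (w + (m : ℤ) • e).2|
      ≤ |u.1 - w.1| + |u.2 - w.2| + (n - m) := by
  have h1 := le_abs_self (u.1 - w.1)
  have h2 := neg_abs_le (u.1 - w.1)
  have h3 := le_abs_self (u.2 - w.2)
  have h4 := neg_abs_le (u.2 - w.2)
  rcases unit_cases he with rfl | rfl | rfl | rfl <;>
    simp only [Prod.fst_add, Prod.snd_add, Prod.smul_fst, Prod.smul_snd, smul_eq_mul, mul_one,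
      mul_zero, add_zero, mul_neg] <;>
    generalize |u.1 - w.1| = p at * <;> generalize |u.2 - w.2| = q at *
  all_goals first
    | (rcases abs_cases (u.1 + n - (w.1 + m)) with ⟨e1, _⟩ | ⟨e1, _⟩ <;> omega)
    | (rcases abs_cases (u.1 + -n - (w.1 + -m)) with ⟨e1, _⟩ | ⟨e1, _⟩ <;> omega)
    | (rcases abs_cases (u.2 + n - (w.2 + m)) with ⟨e1, _⟩ | ⟨e1, _⟩ <;> omega)
    | (rcases abs_cases (u.2 + -n - (w.2 + -m)) with ⟨e1, _⟩ | ⟨e1, _⟩ <;> omega)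

theorem top_dir {f : ℤ × ℤ → ℤ} (u : ℤ × ℤ) (n : ℕ) :
    ∃ e : ℤ × ℤ, |e.1| + |e.2| = 1 ∧ f (u + (n : ℤ) • e) - n = top f u n := by
  have e1 : u + (n : ℤ) • ((1, 0) : ℤ × ℤ) = (u.1 + n, u.2) := by ext <;> simp
  have e2 : u + (n : ℤ) • ((-1, 0) : ℤ × ℤ) = (u.1 - n, u.2) := by ext <;> simp [sub_eq_add_neg]
  have e3 : u + (n : ℤ) • ((0, 1) : ℤ × ℤ) = (u.1, u.2 + n) := by ext <;> simp
  have e4 : u + (n : ℤ) • ((0, -1) : ℤ × ℤ) = (u.1, u.2 - n) := by ext <;> simp [sub_eq_add_neg]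
  have : f (u.1 + n, u.2) - n = top f u n ∨ f (u.1 - n, u.2) - n = top f u n ∨
      f (u.1, u.2 + n) - n = top f u n ∨ f (u.1, u.2 - n) - n = top f u n := by
    unfold top; omega
  rcases this with h | h | h | h
  · exact ⟨(1, 0), by simp, by rw [e1]; exact h⟩
  · exact ⟨(-1, 0), by simp, by rw [e2]; exact h⟩
  · exact ⟨(0, 1), by simp, by rw [e3]; exact h⟩
  · exact ⟨(0, -1), by simp, by rw [e4]; exact h⟩

theorem ray_of_top {f : ℤ × ℤ → ℤ} (hf : Hom f) (u : ℤ × ℤ) (t : ℤ)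
    (h : ∀ n : ℕ, t < top f u (n + 1)) :
    ∃ e : ℤ × ℤ, |e.1| + |e.2| = 1 ∧ ∀ n : ℕ, t + n < f (u + (n : ℤ) • e) := by
  by_contra hc
  push Not at hc
  have hc' : ∀ e : ℤ × ℤ, ∃ n : ℕ, |e.1| + |e.2| = 1 → f (u + (n : ℤ) • e) ≤ t + n := by
    intro e
    by_cases he : |e.1| + |e.2| = 1
    · obtain ⟨n, hn⟩ := hc e he
      exact ⟨n, fun _ => hn⟩
    · exact ⟨0, fun h => absurd h he⟩
  choose N hN using hc'
  set M := N (1, 0) + N (-1, 0) + N (0, 1) + N (0, -1) with hM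
  obtain ⟨e, he, h1⟩ := top_dir (f := f) u (M + 1)
  have h2 := h M
  have h3 := hN e he
  have hle : N e ≤ M + 1 := by
    rcases unit_cases he with rfl | rfl | rfl | rfl <;> omega
  have h4 := (lip hf (u + ((M + 1 : ℕ) : ℤ) • e) (u + (N e : ℤ) • e)).1
  have h5 := ray_dist he u u (M + 1) (N e) hle
  simp only [sub_self, abs_zero, zero_add] at h5
  omega

/-- the tail event: bounded defect along the ray -/
def Ray (u e : ℤ × ℤ) (K : ℤ) : Set (ℤ × ℤ → ℤ) :=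
  {f | ∀ᶠ n : ℕ in atTop, K + n < f (u + (n : ℤ) • e)}

theorem meas_Ray (u e : ℤ × ℤ) (K : ℤ) : MeasurableSet (Ray u e K) := by
  have : Ray u e K = ⋃ N : ℕ, ⋂ n : ℕ, ⋂ _ : N ≤ n,
      (fun f : ℤ × ℤ → ℤ => f (u + (n : ℤ) • e)) ⁻¹' Set.Ioi (K + n) := by
    ext f; simp [Ray, eventually_atTop]
  rw [this]
  exact MeasurableSet.iUnion fun N => MeasurableSet.iInter fun n => MeasurableSet.iInter fun _ =>
    measurable_pi_apply _ (MeasurableSet.of_discrete)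

theorem ray_out {e : ℤ × ℤ} (he : |e.1| + |e.2| = 1) (u : ℤ × ℤ) (Λ : Finset (ℤ × ℤ)) :
    ∀ᶠ n : ℕ in atTop, u + (n : ℤ) • e ∉ Λ := by
  have hinj : Function.Injective fun n : ℕ => u + (n : ℤ) • e := by
    intro n m h
    simp only [add_right_inj] at h
    have h1 := congrArg Prod.fst h
    have h2 := congrArg Prod.snd h
    rcases unit_cases he with rfl | rfl | rfl | rfl <;> simp at h1 h2 <;> omega
  rw [← Nat.cofinite_eq_atTop]
  exact hinj.tendsto_cofinite.eventually Λ.eventually_cofinite_notMem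

theorem inv_Ray {e : ℤ × ℤ} (he : |e.1| + |e.2| = 1) (u : ℤ × ℤ) (K : ℤ) (Λ : Finset (ℤ × ℤ))
    (b : ℤ × ℤ → ℤ) : rep Λ b ⁻¹' Ray u e K = Ray u e K := by
  ext f
  simp only [Ray, Set.mem_preimage, Set.mem_ofPred_eq]
  refine eventually_congr ?_
  filter_upwards [ray_out he u Λ] with n hn
  simp only [rep, if_neg hn]

theorem main {μ : Measure (ℤ × ℤ → ℤ)} (hμ : Gibbs μ)
    (hext : ∀ ν₁, Gibbs ν₁ → ∀ ν₂, Gibbs ν₂ → ∀ t : ENNReal, 0 < t → t < 1 →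
      μ = t • ν₁ + (1 - t) • ν₂ → ν₁ = ν₂) (w : ℤ × ℤ) (t : ℤ) (ht : ∀ᵐ f ∂μ, t < f w) :
    ∃ e : ℤ × ℤ, |e.1| + |e.2| = 1 ∧ ∀ᵐ f ∂μ, Hom f ∧ ∀ n : ℕ, t + n < f (w + (n : ℤ) • e) := by
  have := hμ.1
  have h0 : μ {f | f w ≤ t} = 0 := by
    have := ae_iff.1 ht
    simpa using this
  have h1 : ∀ᵐ f ∂μ, ∀ n : ℕ, t < top f w (n + 1) := by
    refine ae_all_iff.2 fun n => ?_
    have := tail hμ w n t
    rw [h0, mul_zero] at this
    rw [ae_iff]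
    simpa using this
  have h2 : ∀ᵐ f ∂μ, f ∈ Ray w (1, 0) t ∪ Ray w (-1, 0) t ∪ Ray w (0, 1) t ∪ Ray w (0, -1) t := by
    filter_upwards [h1, hμ.2.1] with f hf hh
    obtain ⟨e, he, h⟩ := ray_of_top hh w t hf
    have : f ∈ Ray w e t := Eventually.of_forall h
    rcases unit_cases he with rfl | rfl | rfl | rfl <;> simp [this]
  have h3 : ∃ e : ℤ × ℤ, |e.1| + |e.2| = 1 ∧ μ (Ray w e t) ≠ 0 := by
    by_contra hc
    push Not at hc
    have z : μ (Ray w (1, 0) t ∪ Ray w (-1, 0) t ∪ Ray w (0, 1) t ∪ Ray w (0, -1) t) = 0 :=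
      measure_union_null (measure_union_null (measure_union_null (hc _ (by simp)) (hc _ (by simp)))
        (hc _ (by simp))) (hc _ (by simp))
    have z' := measure_eq_zero_iff_ae_notMem.1 z
    obtain ⟨f, h, h'⟩ := (h2.and z').exists
    exact h' h
  obtain ⟨e, he, hne⟩ := h3
  refine ⟨e, he, ?_⟩
  have h4 := zero_one hμ hext (meas_Ray w e t) (inv_Ray he w t) hne
  have h5 : ∀ᵐ f ∂μ, f ∈ Ray w e t := h4
  filter_upwards [h5, hμ.2.1] with f hf hh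
  refine ⟨hh, fun n => ?_⟩
  obtain ⟨m, hm, hle⟩ := (hf.and (eventually_ge_atTop n)).exists
  have h6 := (lip hh (w + (m : ℤ) • e) (w + (n : ℤ) • e)).1
  have h7 := ray_dist he w w m n hle
  simp only [sub_self, abs_zero, zero_add] at h7
  omega

theorem lim_of_bdd (a : ℕ → ℤ) (K : ℤ) (h1 : ∀ n : ℕ, a n ≤ n) (h2 : ∀ n : ℕ, n - K ≤ a n) :
    Tendsto (fun n : ℕ => ((a n : ℤ) : ℝ) / (n : ℝ)) atTop (nhds 1) := by
  have l1 : Tendsto (fun n : ℕ => 1 - (K : ℝ) / (n : ℝ)) atTop (nhds 1) := by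
    simpa using (tendsto_const_div_atTop_nhds_zero_nat (K : ℝ)).const_sub 1
  refine tendsto_of_tendsto_of_tendsto_of_le_of_le' l1 tendsto_const_nhds ?_ ?_
  · filter_upwards [eventually_gt_atTop 0] with n hn
    have hn' : (0 : ℝ) < n := by exact_mod_cast hn
    have : ((n : ℝ) - K) ≤ (a n : ℝ) := by exact_mod_cast h2 n
    rw [le_div_iff₀ hn', sub_mul, div_mul_cancel₀ _ hn'.ne', one_mul]
    exact this
  · filter_upwards [eventually_gt_atTop 0] with n hn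
    have hn' : (0 : ℝ) < n := by exact_mod_cast hn
    have : (a n : ℝ) ≤ n := by exact_mod_cast h1 n
    rwa [div_le_one hn']

theorem frozen {μ : Measure (ℤ × ℤ → ℤ)} (hμ : Gibbs μ)
    (hext : ∀ ν₁, Gibbs ν₁ → ∀ ν₂, Gibbs ν₂ → ∀ t : ENNReal, 0 < t → t < 1 →
      μ = t • ν₁ + (1 - t) • ν₂ → ν₁ = ν₂) (w : ℤ × ℤ) (t : ℤ) (ht : ∀ᵐ f ∂μ, t < f w) :
    ∃ e : ℤ × ℤ, |e.1| + |e.2| = 1 ∧ ∀ u : ℤ × ℤ, ∀ᵐ f ∂μ,
      (∃ K : ℤ, ∀ n : ℕ, n - K ≤ f (u + (n : ℤ) • e) - f u) ∧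
      Tendsto (fun n : ℕ => ((f (u + (n : ℤ) • e) - f u : ℤ) : ℝ) / (n : ℝ)) atTop (nhds 1) := by
  obtain ⟨e, he, h⟩ := main hμ hext w t ht
  refine ⟨e, he, fun u => ?_⟩
  filter_upwards [h] with f ⟨hh, hf⟩
  have hK : ∀ n : ℕ, n - (|w.1 - u.1| + |w.2 - u.2| + f u - t) ≤ f (u + (n : ℤ) • e) - f u := by
    intro n
    have h1 := hf n
    have h2 := (lip hh (w + (n : ℤ) • e) (u + (n : ℤ) • e)).1
    have h3 := ray_dist he w u n n le_rfl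
    omega
  refine ⟨⟨_, hK⟩, lim_of_bdd _ _ (fun n => ?_) hK⟩
  have h2 := (lip hh (u + (n : ℤ) • e) (u + ((0 : ℕ) : ℤ) • e)).1
  have h3 := ray_dist he u u n 0 (Nat.zero_le _)
  simp only [sub_self, abs_zero, zero_add] at h3
  simp only [Nat.cast_zero, zero_smul, add_zero, sub_zero] at h2 h3
  omega

end Pool.Agent.MP_151d89_pr.H82
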