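import Pool.Agent.MP_151d89_pr.H82.Basic

set_option autoImplicit false
open MeasureTheory

namespace Pool.Agent.MP_151d89_pr.H82

theorem det_bits {g h : ℤ × ℤ → ℤ} (hg : Hom g) (hh : Hom h) (u : ℤ × ℤ) (n : ℕ)
    (hout : ∀ x ∈ box u (n + 1), x ∉ box u n → g x = h x)
    (hb : ∀ x ∈ box u n, (g (x.1 - 1, x.2) < g x ↔ h (x.1 - 1, x.2) < h x)) :
    ∀ x ∈ box u (n + 1), g x = h x := by
  have key : ∀ k : ℕ, ∀ x ∈ box u (n + 1), x.1 = u.1 - (n + 1) + k → g x = h x := by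
    intro k
    induction k with
    | zero =>
      intro x hx e
      apply hout x hx
      rw [mem_box]; push_cast at e; omega
    | succ k ih =>
      intro x hx e
      by_cases hin : x ∈ box u n
      · have h1 := ih (x.1 - 1, x.2) (by rw [mem_box] at hin ⊢; push_cast; omega)
          (by push_cast at e; simp only; omega)
        have h2 := hb x hin
        have h3 := hg x (x.1 - 1, x.2) (by simp)
        have h4 := hh x (x.1 - 1, x.2) (by simp)
        rw [abs_eq (by norm_num)] at h3 h4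
        omega
      · exact hout x hx hin
  intro x hx
  have hx' := hx
  rw [mem_box] at hx'
  push_cast at hx'
  exact key (x.1 - (u.1 - (n + 1))).toNat x hx (by omega)

theorem tail_fibre {μ : Measure (ℤ × ℤ → ℤ)} (hμ : Gibbs μ) (u : ℤ × ℤ) (n : ℕ) (t : ℤ)
    (β : Finset (ℤ × ℤ)) :
    μ {f | Hom f ∧ top f u (n + 1) ≤ t ∧ ∀ x ∈ box u n, (x ∈ β ↔ f (x.1 - 1, x.2) < f x)} ≤
      μ {f | f u ≤ t} := by
  classical
  set A : Set (ℤ × ℤ → ℤ) :=
    {f | Hom f ∧ top f u (n + 1) ≤ t ∧ ∀ x ∈ box u n, (x ∈ β ↔ f (x.1 - 1, x.2) < f x)} with hA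
  set Δ := box u (n + 1) with hΔ
  let P : Set (Δ → ℤ) := {p | ∃ g ∈ A, ∀ x : Δ, p x = g x}
  have hch : ∀ p : P, ∃ g ∈ A, ∀ x : Δ, p.1 x = g x := fun p => p.2
  choose G hGA hGp using hch
  have hsub : A ⊆ ⋃ p : P, cyl Δ (G p) := by
    intro f hf
    refine Set.mem_iUnion.2 ⟨⟨fun x => f x, f, hf, fun _ => rfl⟩, fun x hx => ?_⟩
    exact hGp ⟨fun x => f x, f, hf, fun _ => rfl⟩ ⟨x, hx⟩
  have hdisj : Pairwise (Function.onFun Disjoint
      fun p : P => cyl Δ (cut (G p) u (top (G p) u (n + 1)))) := by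
    intro p q hpq
    rw [Function.onFun, Set.disjoint_left]
    intro f hp hq
    apply hpq
    have e : ∀ x ∈ Δ, G p x = G q x := by
      refine det_bits (hGA p).1 (hGA q).1 u n ?_ ?_
      · intro x hx hx'
        rw [cut_out (hGA p).1 u n x hx', cut_out (hGA q).1 u n x hx', ← hp x hx, ← hq x hx]
      · intro x hx
        rw [← (hGA p).2.2 x hx, ← (hGA q).2.2 x hx]
    apply Subtype.ext
    funext x
    rw [hGp p x, hGp q x, e x x.2]
  calc μ A ≤ μ (⋃ p : P, cyl Δ (G p)) := measure_mono hsub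
    _ ≤ ∑' p : P, μ (cyl Δ (G p)) := measure_iUnion_le _
    _ = ∑' p : P, μ (cyl Δ (cut (G p) u (top (G p) u (n + 1)))) :=
        tsum_congr fun p => cyl_cut hμ (hGA p).1 u n
    _ = μ (⋃ p : P, cyl Δ (cut (G p) u (top (G p) u (n + 1)))) :=
        (measure_iUnion hdisj fun p => meas_cyl _ _).symm
    _ ≤ μ {f | f u ≤ t} := by
        apply measure_mono
        intro f hf
        obtain ⟨p, hp⟩ := Set.mem_iUnion.1 hf
        have h1 := hp u (by rw [hΔ, mem_box]; omega)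
        have h2 := (hGA p).2.1
        simp only [cut, sub_self, abs_zero, add_zero] at h1
        show f u ≤ t
        omega

/-- the basic tail inequality -/
theorem tail {μ : Measure (ℤ × ℤ → ℤ)} (hμ : Gibbs μ) (u : ℤ × ℤ) (n : ℕ) (t : ℤ) :
    μ {f | top f u (n + 1) ≤ t} ≤ 2 ^ ((2 * n + 1) ^ 2) * μ {f | f u ≤ t} := by
  classical
  have h1 : μ {f | top f u (n + 1) ≤ t} ≤ μ (⋃ β ∈ (box u n).powerset,
      {f | Hom f ∧ top f u (n + 1) ≤ t ∧ ∀ x ∈ box u n, (x ∈ β ↔ f (x.1 - 1, x.2) < f x)}) := by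
    apply measure_mono_ae
    filter_upwards [hμ.2.1] with f hf ht
    refine Set.mem_biUnion (x := (box u n).filter fun x => f (x.1 - 1, x.2) < f x)
      (by simp only [Finset.mem_coe, Finset.mem_powerset]; exact Finset.filter_subset _ _) ⟨hf, ht, fun x hx => by simp [hx]⟩
  refine h1.trans ((measure_biUnion_finset_le _ _).trans ?_)
  refine (Finset.sum_le_card_nsmul _ _ _ fun β _ => tail_fibre hμ u n t β).trans ?_
  rw [Finset.card_powerset, card_box, nsmul_eq_mul]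
  simp

/-- replacing the values on a finite set -/
def rep (Λ : Finset (ℤ × ℤ)) (b f : ℤ × ℤ → ℤ) : ℤ × ℤ → ℤ :=
  fun x => if x ∈ Λ then b x else f x

theorem meas_rep (Λ : Finset (ℤ × ℤ)) (b : ℤ × ℤ → ℤ) : Measurable (rep Λ b) := by
  refine measurable_pi_iff.2 fun x => ?_
  unfold rep
  split_ifs
  · exact measurable_const
  · exact measurable_pi_apply x

theorem rep_hom {Λ Δ : Finset (ℤ × ℤ)} {a b g : ℤ × ℤ → ℤ} (hb : Hom b) (hg : Hom g)
    (hab : ∀ x, x ∉ Λ → a x = b x)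
    (hΔ : ∀ x ∈ Λ, x ∈ Δ ∧ ∀ y : ℤ × ℤ, |x.1 - y.1| + |x.2 - y.2| = 1 → y ∈ Δ)
    (hga : g ∈ cyl Δ a) : Hom (rep Λ b g) := by
  intro x y hxy
  unfold rep
  by_cases hx : x ∈ Λ <;> by_cases hy : y ∈ Λ <;> simp only [hx, hy, if_true, if_false]
  · exact hb x y hxy
  · rw [hga y ((hΔ x hx).2 y hxy), hab y hy]; exact hb x y hxy
  · rw [hga x ((hΔ y hy).2 x (by rw [abs_sub_comm y.1, abs_sub_comm y.2]; exact hxy)), hab x hx]
    exact hb x y hxy
  · exact hg x y hxy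

theorem gen_cyl : (MeasurableSpace.pi : MeasurableSpace (ℤ × ℤ → ℤ)) =
    MeasurableSpace.generateFrom {S | S = ∅ ∨ ∃ Δ a, S = cyl Δ a} := by
  apply le_antisymm
  · have : @Measurable _ _ (MeasurableSpace.generateFrom {S | S = ∅ ∨ ∃ Δ a, S = cyl Δ a})
        (MeasurableSpace.pi : MeasurableSpace (ℤ × ℤ → ℤ)) id := by
      let : MeasurableSpace (ℤ × ℤ → ℤ) :=
        MeasurableSpace.generateFrom {S | S = ∅ ∨ ∃ Δ a, S = cyl Δ a}
      refine measurable_pi_lambda _ fun x => measurable_to_countable' fun k => ?_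
      refine MeasurableSpace.measurableSet_generateFrom (Or.inr ⟨{x}, fun _ => k, ?_⟩)
      ext f; simp [cyl]
    intro S hS
    exact this hS
  · refine MeasurableSpace.generateFrom_le ?_
    rintro S (rfl | ⟨Δ, a, rfl⟩)
    · exact MeasurableSet.empty
    · exact meas_cyl Δ a

theorem pi_cyl : IsPiSystem {S : Set (ℤ × ℤ → ℤ) | S = ∅ ∨ ∃ Δ a, S = cyl Δ a} := by
  classical
  rintro S (rfl | ⟨Δ, a, rfl⟩) T (rfl | ⟨Δ', a', rfl⟩) hne
  · simp at hne
  · simp at hne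
  · simp at hne
  · obtain ⟨f, h1, h2⟩ := hne
    refine Or.inr ⟨Δ ∪ Δ', f, ?_⟩
    ext g
    simp only [cyl, Set.mem_inter_iff, Set.mem_ofPred_eq, Finset.mem_union]
    constructor
    · rintro ⟨h3, h4⟩ x (hx | hx)
      · rw [h3 x hx, h1 x hx]
      · rw [h4 x hx, h2 x hx]
    · intro h
      exact ⟨fun x hx => by rw [h x (Or.inl hx), h1 x hx],
        fun x hx => by rw [h x (Or.inr hx), h2 x hx]⟩

theorem swap_le {μ : Measure (ℤ × ℤ → ℤ)} (hμ : Gibbs μ) {Λ Δ : Finset (ℤ × ℤ)}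
    {a b : ℤ × ℤ → ℤ} (ha : Hom a) (hb : Hom b) (hab : ∀ x, x ∉ Λ → a x = b x)
    (hΔ : ∀ x ∈ Λ, x ∈ Δ ∧ ∀ y : ℤ × ℤ, |x.1 - y.1| + |x.2 - y.2| = 1 → y ∈ Δ)
    (Δ' : Finset (ℤ × ℤ)) (c : ℤ × ℤ → ℤ) :
    μ (rep Λ b ⁻¹' cyl Δ' c ∩ cyl Δ a) = μ (cyl Δ' c ∩ cyl Δ b) := by
  classical
  have key : ∀ g, Hom g → g ∈ rep Λ b ⁻¹' cyl Δ' c ∩ cyl Δ a →
      μ (rep Λ b ⁻¹' cyl Δ' c ∩ cyl Δ a) = μ (cyl Δ' c ∩ cyl Δ b) := by
    rintro g hg ⟨h1, h2⟩
    have hg' := rep_hom hb hg hab hΔ h2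
    have e := hμ.2.2 Λ (Δ ∪ Δ') g (rep Λ b g) hg hg' (fun x hx => by simp [rep, hx])
      (fun x hx => ⟨Finset.mem_union_left _ (hΔ x hx).1,
        fun y hy => Finset.mem_union_left _ ((hΔ x hx).2 y hy)⟩)
    have h1' : ∀ x ∈ Δ', rep Λ b g x = c x := h1
    have h2' : ∀ x ∈ Δ, g x = a x := h2
    convert e using 2
    · ext f
      simp only [cyl, Set.mem_inter_iff, Set.mem_preimage, Set.mem_ofPred_eq, Finset.mem_union]
      constructor
      · rintro ⟨h3, h4⟩ x (hx | hx)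
        · rw [h4 x hx, h2' x hx]
        · by_cases hl : x ∈ Λ
          · rw [h4 x (hΔ x hl).1, h2' x (hΔ x hl).1]
          · have e1 := h3 x hx
            have e2 := h1' x hx
            simp only [rep, hl, if_false] at e1 e2
            rw [e1, e2]
      · intro h
        refine ⟨fun x hx => ?_, fun x hx => by rw [h x (Or.inl hx), h2' x hx]⟩
        rw [← h1' x hx]
        simp only [rep]
        split_ifs
        · rfl
        · exact h x (Or.inr hx)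
    · ext f
      simp only [cyl, Set.mem_inter_iff, Set.mem_ofPred_eq, Finset.mem_union]
      have hb' : ∀ x ∈ Δ, rep Λ b g x = b x := by
        intro x hx
        simp only [rep]
        split_ifs with hl
        · rfl
        · rw [h2' x hx, hab x hl]
      constructor
      · rintro ⟨h3, h4⟩ x (hx | hx)
        · rw [h4 x hx, hb' x hx]
        · rw [h3 x hx, h1' x hx]
      · intro h
        exact ⟨fun x hx => by rw [h x (Or.inr hx), h1' x hx],
          fun x hx => by rw [h x (Or.inl hx), hb' x hx]⟩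
  by_cases h1 : ∃ g, Hom g ∧ g ∈ rep Λ b ⁻¹' cyl Δ' c ∩ cyl Δ a
  · obtain ⟨g, hg, h⟩ := h1
    exact key g hg h
  by_cases h2 : ∃ g, Hom g ∧ g ∈ cyl Δ' c ∩ cyl Δ b
  · obtain ⟨g, hg, h3, h4⟩ := h2
    refine key (rep Λ a g) (rep_hom ha hg (fun x hx => (hab x hx).symm) hΔ h4) ⟨?_, ?_⟩
    · intro x hx
      rw [← h3 x hx]
      simp only [rep]
      split_ifs with hl
      · exact (h4 x (hΔ x hl).1).symm
      · rfl
    · intro x hx
      simp only [rep]
      split_ifs with hl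
      · rfl
      · rw [h4 x hx, hab x hl]
  have z1 : μ (rep Λ b ⁻¹' cyl Δ' c ∩ cyl Δ a) = 0 := by
    refine measure_mono_null (t := {f | ¬ Hom f}) (fun g hg hh => h1 ⟨g, hh, hg⟩) hμ.2.1
  have z2 : μ (cyl Δ' c ∩ cyl Δ b) = 0 := by
    refine measure_mono_null (t := {f | ¬ Hom f}) (fun g hg hh => h2 ⟨g, hh, hg⟩) hμ.2.1
  rw [z1, z2]

theorem swap {μ : Measure (ℤ × ℤ → ℤ)} (hμ : Gibbs μ) {Λ Δ : Finset (ℤ × ℤ)}
    {a b : ℤ × ℤ → ℤ} (ha : Hom a) (hb : Hom b) (hab : ∀ x, x ∉ Λ → a x = b x)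
    (hΔ : ∀ x ∈ Λ, x ∈ Δ ∧ ∀ y : ℤ × ℤ, |x.1 - y.1| + |x.2 - y.2| = 1 → y ∈ Δ) :
    (μ.restrict (cyl Δ a)).map (rep Λ b) = μ.restrict (cyl Δ b) := by
  have := hμ.1
  refine ext_of_generate_finite _ gen_cyl pi_cyl ?_ ?_
  · rintro S (rfl | ⟨Δ', c, rfl⟩)
    · simp
    · rw [Measure.map_apply (meas_rep _ _) (meas_cyl _ _),
        Measure.restrict_apply (meas_rep _ _ (meas_cyl _ _)), Measure.restrict_apply (meas_cyl _ _)]
      exact swap_le hμ ha hb hab hΔ Δ' c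
  · rw [Measure.map_apply (meas_rep _ _) MeasurableSet.univ]
    simp only [Set.preimage_univ, Measure.restrict_apply_univ]
    exact hμ.2.2 Λ Δ a b ha hb hab hΔ

theorem gibbs_cond {μ : Measure (ℤ × ℤ → ℤ)} (hμ : Gibbs μ) {T : Set (ℤ × ℤ → ℤ)}
    (hT : MeasurableSet T) (hinv : ∀ Λ b, rep Λ b ⁻¹' T = T) (h0 : μ T ≠ 0) :
    Gibbs (ProbabilityTheory.cond μ T) := by
  have := hμ.1
  refine ⟨ProbabilityTheory.cond_isProbabilityMeasure h0,
    ProbabilityTheory.cond_absolutelyContinuous.ae_le hμ.2.1, ?_⟩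
  intro Λ Δ a b ha hb hab hΔ
  rw [ProbabilityTheory.cond_apply hT, ProbabilityTheory.cond_apply hT]
  congr 1
  have e := congrArg (fun m : Measure (ℤ × ℤ → ℤ) => m T) (swap hμ ha hb hab hΔ)
  rw [Measure.map_apply (meas_rep _ _) hT, hinv, Measure.restrict_apply hT,
    Measure.restrict_apply hT] at e
  exact e

theorem zero_one {μ : Measure (ℤ × ℤ → ℤ)} (hμ : Gibbs μ)
    (hext : ∀ ν₁, Gibbs ν₁ → ∀ ν₂, Gibbs ν₂ → ∀ t : ENNReal, 0 < t → t < 1 →
      μ = t • ν₁ + (1 - t) • ν₂ → ν₁ = ν₂) {T : Set (ℤ × ℤ → ℤ)}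
    (hT : MeasurableSet T) (hinv : ∀ Λ b, rep Λ b ⁻¹' T = T) (h0 : μ T ≠ 0) : μ Tᶜ = 0 := by
  have := hμ.1
  by_contra h1
  have g1 := gibbs_cond hμ hT hinv h0
  have g2 := gibbs_cond hμ hT.compl (fun Λ b => by rw [Set.preimage_compl, hinv]) h1
  have hc : μ Tᶜ = 1 - μ T := prob_compl_eq_one_sub hT
  have hlt : μ T < 1 := by
    refine lt_of_le_of_ne prob_le_one fun h => h1 ?_
    rw [hc, h, tsub_self]
  have e := hext _ g1 _ g2 (μ T) (pos_iff_ne_zero.2 h0) hlt (by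
    rw [← hc]
    unfold ProbabilityTheory.cond
    rw [smul_smul, smul_smul, ENNReal.mul_inv_cancel h0 (measure_ne_top _ _),
      ENNReal.mul_inv_cancel h1 (measure_ne_top _ _), one_smul, one_smul,
      Measure.restrict_add_restrict_compl hT])
  have e2 := congrArg (fun m : Measure (ℤ × ℤ → ℤ) => m T) e
  rw [ProbabilityTheory.cond_apply hT, ProbabilityTheory.cond_apply hT.compl] at e2
  simp only [Set.inter_self, Set.compl_inter_self, measure_empty, mul_zero] at e2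
  rw [ENNReal.inv_mul_cancel h0 (measure_ne_top _ _)] at e2
  exact one_ne_zero e2

end Pool.Agent.MP_151d89_pr.H82
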